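import Mathlib

/-! # Local unitary equivalence of stabilizer codes: basic definitions -/

namespace Pool.Agent.R993.LU

open Matrix

/-- the four letters of a Pauli string -/
inductive Pauli
  | I | X | Y | Z
deriving DecidableEq

/-- the 2 × 2 matrix of a letter -/
def Pauli.mat : Pauli → Matrix (Fin 2) (Fin 2) ℂ
  | .I => 1
  | .X => !![0, 1; 1, 0]
  | .Y => !![0, -Complex.I; Complex.I, 0]
  | .Z => !![1, 0; 0, -1]

/-- labels of the computational basis of n qubits -/
abbrev Bits (n : ℕ) := Fin n → Fin 2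

/-- the operator A₁ ⊗ ⋯ ⊗ Aₙ on n qubits -/
def tens {n : ℕ} (A : Fin n → Matrix (Fin 2) (Fin 2) ℂ) : Matrix (Bits n) (Bits n) ℂ :=
  Matrix.of fun x y => ∏ i, A i (x i) (y i)

/-- the tensor product operator of a Pauli string -/
def pauliOp {n : ℕ} (s : Fin n → Pauli) : Matrix (Bits n) (Bits n) ℂ :=
  tens fun i => (s i).mat

/-- the common +1 eigenspace of the generators g₁, …, gₘ -/
def codespace {n m : ℕ} (g : Fin m → Fin n → Pauli) : Submodule ℂ (Bits n → ℂ) where
  carrier := {ψ | ∀ j, pauliOp (g j) *ᵥ ψ = ψ}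
  add_mem' := by
    intro a b ha hb j
    rw [Matrix.mulVec_add, ha j, hb j]
  zero_mem' := by
    intro j
    rw [Matrix.mulVec_zero]
  smul_mem' := by
    intro c a ha j
    rw [Matrix.mulVec_smul, ha j]

/-- the operator permuting the qubits by π -/
def permOp {n : ℕ} (π : Equiv.Perm (Fin n)) : (Bits n → ℂ) →ₗ[ℂ] (Bits n → ℂ) where
  toFun ψ := fun x => ψ (fun i => x (π i))
  map_add' := by intros; rfl
  map_smul' := by intros; rfl

/-- some operator (U₁ ⊗ ⋯ ⊗ Uₙ) P_π, with all Uᵢ unitary, maps Q onto Q' -/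
def LUEquivalent {n : ℕ} (Q Q' : Submodule ℂ (Bits n → ℂ)) : Prop :=
  ∃ (U : Fin n → Matrix (Fin 2) (Fin 2) ℂ) (π : Equiv.Perm (Fin n)),
    (∀ i, U i ∈ Matrix.unitaryGroup (Fin 2) ℂ) ∧
    Q.map ((tens U).mulVecLin ∘ₗ permOp π) = Q'

/-! ### algebra of `tens` -/

lemma tens_mul {n : ℕ} (A B : Fin n → Matrix (Fin 2) (Fin 2) ℂ) :
    tens A * tens B = tens (fun i => A i * B i) := by
  ext x y
  simp only [tens, Matrix.mul_apply, Matrix.of_apply]
  rw [Finset.prod_univ_sum]
  rw [Fintype.piFinset_univ]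
  refine Finset.sum_congr rfl fun z _ => ?_
  rw [Finset.prod_mul_distrib]

lemma tens_one {n : ℕ} : tens (fun _ : Fin n => (1 : Matrix (Fin 2) (Fin 2) ℂ)) = 1 := by
  ext x y
  simp only [tens, Matrix.of_apply, Matrix.one_apply]
  by_cases h : x = y
  · subst h; simp
  · rw [if_neg h]
    obtain ⟨i, hi⟩ := Function.ne_iff.1 h
    exact Finset.prod_eq_zero (Finset.mem_univ i) (by simp [hi])

lemma trace_tens {n : ℕ} (A : Fin n → Matrix (Fin 2) (Fin 2) ℂ) :
    (tens A).trace = ∏ i, (A i).trace := by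
  simp only [Matrix.trace, Matrix.diag, tens, Matrix.of_apply]
  rw [Finset.prod_univ_sum, Fintype.piFinset_univ]

lemma tens_conjTranspose {n : ℕ} (A : Fin n → Matrix (Fin 2) (Fin 2) ℂ) :
    (tens A)ᴴ = tens (fun i => (A i)ᴴ) := by
  ext x y
  simp [tens, Matrix.conjTranspose_apply]

lemma tens_smul {n : ℕ} (c : Fin n → ℂ) (A : Fin n → Matrix (Fin 2) (Fin 2) ℂ) :
    tens (fun i => c i • A i) = (∏ i, c i) • tens A := by
  ext x y
  simp [tens, Finset.prod_mul_distrib]

/-- the permutation matrix of P_π -/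
def permMat {n : ℕ} (π : Equiv.Perm (Fin n)) : Matrix (Bits n) (Bits n) ℂ :=
  Matrix.of fun x y => if (fun i => x (π i)) = y then 1 else 0

lemma permMat_mulVec {n : ℕ} (π : Equiv.Perm (Fin n)) (ψ : Bits n → ℂ) :
    permMat π *ᵥ ψ = permOp π ψ := by
  ext x
  simp [permMat, Matrix.mulVec, dotProduct, permOp]

/-- conjugating a tensor operator by a permutation of the qubits -/
lemma permMat_tens {n : ℕ} (π : Equiv.Perm (Fin n)) (A : Fin n → Matrix (Fin 2) (Fin 2) ℂ) :
    permMat π * tens A = tens (fun i => A (π.symm i)) * permMat π := by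
  ext x y
  simp only [Matrix.mul_apply, permMat, tens, Matrix.of_apply, ite_mul, one_mul, zero_mul,
    mul_ite, mul_one, mul_zero, Finset.sum_ite_eq, Finset.mem_univ, if_true]
  have h1 : ∀ z : Bits n, ((fun i => z (π i)) = y) ↔ (z = fun i => y (π.symm i)) := by
    intro z
    constructor
    · intro h; subst h; funext i; simp
    · intro h; subst h; funext i; simp
  simp only [h1, Finset.sum_ite_eq', Finset.mem_univ, if_true]
  rw [← Equiv.prod_comp π (fun i => A (π.symm i) (x i) (y (π.symm i)))]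
  simp

lemma permMat_unitary {n : ℕ} (π : Equiv.Perm (Fin n)) :
    (permMat π)ᴴ * permMat π = 1 := by
  ext x y
  simp only [Matrix.mul_apply, Matrix.conjTranspose_apply, permMat, Matrix.of_apply,
    Matrix.one_apply]
  have h1 : ∀ z : Bits n, ((fun i => z (π i)) = x) ↔ (z = fun i => x (π.symm i)) := by
    intro z
    constructor
    · intro h; subst h; funext i; simp
    · intro h; subst h; funext i; simp
  rw [Finset.sum_eq_single (fun i => x (π.symm i))]
  · by_cases hxy : x = y
    · subst hxy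
      rw [if_pos (by funext i; simp)]
      simp
    · rw [if_neg hxy]
      have : ¬ ((fun i => x (π.symm (π i))) = y) := by
        intro h; apply hxy; rw [← h]; funext i; simp
      simp only [this, if_false, mul_zero]
  · intro z _ hz
    rw [if_neg (fun h => hz ((h1 z).1 h))]
    simp
  · intro h; exact absurd (Finset.mem_univ _) h

end Pool.Agent.R993.LU
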