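import Pool.Agent.R993.LU.Basic

/-! # Projectors of stabilizer codes and the exact-support invariant -/

namespace Pool.Agent.R993.LU

open Matrix

/-- A hermitian idempotent with range Q -/
def IsProj {N : Type*} [Fintype N] [DecidableEq N] (P : Matrix N N ℂ)
    (Q : Submodule ℂ (N → ℂ)) : Prop :=
  Pᴴ = P ∧ (∀ ψ, P *ᵥ ψ ∈ Q) ∧ ∀ ψ ∈ Q, P *ᵥ ψ = ψ

lemma IsProj.unique {N : Type*} [Fintype N] [DecidableEq N] {P P' : Matrix N N ℂ}
    {Q : Submodule ℂ (N → ℂ)} (h : IsProj P Q) (h' : IsProj P' Q) : P = P' := by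
  have e1 : P * P' = P' := by
    apply Matrix.ext_of_mulVec_single
    intro i
    rw [← Matrix.mulVec_mulVec]
    exact h.2.2 _ (h'.2.1 _)
  have e2 : P' * P = P := by
    apply Matrix.ext_of_mulVec_single
    intro i
    rw [← Matrix.mulVec_mulVec]
    exact h'.2.2 _ (h.2.1 _)
  have e3 : (P * P')ᴴ = P' * P := by
    rw [Matrix.conjTranspose_mul, h.1, h'.1]
  rw [e1, h'.1, e2] at e3
  exact e3.symm

/-- The exact-support property of a set ω of qubits for a subspace. -/
def Hits {n : ℕ} (P : Matrix (Bits n) (Bits n) ℂ) (ω : Finset (Fin n)) : Prop :=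
  ∃ A : Fin n → Matrix (Fin 2) (Fin 2) ℂ, (∀ i ∈ ω, (A i).trace = 0) ∧ (∀ i ∉ ω, A i = 1) ∧
    (P * tens A).trace ≠ 0

lemma hits_of_equiv {n : ℕ} {Q Q' : Submodule ℂ (Bits n → ℂ)}
    {P P' : Matrix (Bits n) (Bits n) ℂ} (hP : IsProj P Q) (hP' : IsProj P' Q')
    (h : LUEquivalent Q Q') :
    ∃ π : Equiv.Perm (Fin n), ∀ ω, Hits P ω → Hits P' (ω.map π.toEmbedding) := by
  obtain ⟨U, π, hU, hQ⟩ := h
  refine ⟨π, ?_⟩
  obtain ⟨V, hV⟩ : ∃ V : Matrix (Bits n) (Bits n) ℂ, V = tens U * permMat π := ⟨_, rfl⟩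
  have hUU : ∀ i, (U i)ᴴ * U i = 1 := fun i => Matrix.mem_unitaryGroup_iff'.1 (hU i)
  have hVV : Vᴴ * V = 1 := by
    rw [hV, Matrix.conjTranspose_mul, Matrix.mul_assoc, ← Matrix.mul_assoc (tens U)ᴴ,
      tens_conjTranspose, tens_mul]
    simp only [hUU]
    rw [tens_one, Matrix.one_mul, permMat_unitary]
  have hVV' : V * Vᴴ = 1 := mul_eq_one_comm.1 hVV
  have hVact : ∀ ψ, V *ᵥ ψ = ((tens U).mulVecLin ∘ₗ permOp π) ψ := by
    intro ψ
    rw [hV, ← Matrix.mulVec_mulVec, permMat_mulVec]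
    rfl
  have hproj : IsProj (V * P * Vᴴ) Q' := by
    refine ⟨?_, ?_, ?_⟩
    · rw [Matrix.conjTranspose_mul (V * P), Matrix.conjTranspose_mul V P,
        Matrix.conjTranspose_conjTranspose, hP.1, Matrix.mul_assoc]
    · intro ψ
      rw [← Matrix.mulVec_mulVec, ← Matrix.mulVec_mulVec, hVact, ← hQ]
      exact Submodule.mem_map_of_mem (hP.2.1 _)
    · intro ψ hψ
      rw [← hQ] at hψ
      obtain ⟨φ, hφ, rfl⟩ := hψ
      rw [← hVact, Matrix.mulVec_mulVec, Matrix.mul_assoc, Matrix.mul_assoc, hVV, Matrix.mul_one,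
        ← Matrix.mulVec_mulVec, hP.2.2 _ hφ]
  have hPP : P' = V * P * Vᴴ := hP'.unique hproj
  intro ω hω
  obtain ⟨A, hA1, hA2, hA3⟩ := hω
  refine ⟨fun i => U i * A (π.symm i) * (U i)ᴴ, ?_, ?_, ?_⟩
  · intro i hi
    rw [Matrix.trace_mul_comm, ← Matrix.mul_assoc, hUU, Matrix.one_mul]
    apply hA1
    rw [Finset.mem_map] at hi
    obtain ⟨j, hj, rfl⟩ := hi
    simpa using hj
  · intro i hi
    have : π.symm i ∉ ω := by
      intro h
      apply hi
      rw [Finset.mem_map]
      exact ⟨π.symm i, h, by simp⟩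
    change U i * A (π.symm i) * (U i)ᴴ = 1
    rw [hA2 _ this, Matrix.mul_one]
    exact mul_eq_one_comm.1 (hUU i)
  · have e : tens (fun i => U i * A (π.symm i) * (U i)ᴴ) = V * tens A * Vᴴ := by
      rw [hV, Matrix.mul_assoc (tens U), permMat_tens, ← Matrix.mul_assoc, tens_mul,
        Matrix.conjTranspose_mul, Matrix.mul_assoc, ← Matrix.mul_assoc (permMat π)]
      have : permMat π * (permMat π)ᴴ = 1 := mul_eq_one_comm.1 (permMat_unitary π)
      rw [this, Matrix.one_mul, tens_conjTranspose, tens_mul]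
    rw [e, hPP]
    have e2 : V * P * Vᴴ * (V * tens A * Vᴴ) = V * (P * tens A) * Vᴴ := by
      calc V * P * Vᴴ * (V * tens A * Vᴴ) = V * P * (Vᴴ * V) * tens A * Vᴴ := by
            simp only [Matrix.mul_assoc]
        _ = _ := by rw [hVV, Matrix.mul_one]; simp only [Matrix.mul_assoc]
    rw [e2, Matrix.trace_mul_comm, ← Matrix.mul_assoc, hVV, Matrix.one_mul]
    exact hA3

/-! ### products of Pauli strings -/

/-- product of letters up to phase -/
def Pauli.mul : Pauli → Pauli → Pauli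
  | .I, b => b
  | a, .I => a
  | .X, .X => .I
  | .Y, .Y => .I
  | .Z, .Z => .I
  | .X, .Y => .Z
  | .Y, .X => .Z
  | .Y, .Z => .X
  | .Z, .Y => .X
  | .Z, .X => .Y
  | .X, .Z => .Y

/-- the phase of a product -/
noncomputable def Pauli.phase : Pauli → Pauli → ℂ
  | .X, .Y => Complex.I
  | .Y, .X => -Complex.I
  | .Y, .Z => Complex.I
  | .Z, .Y => -Complex.I
  | .Z, .X => Complex.I
  | .X, .Z => -Complex.I
  | _, _ => 1

lemma Pauli.mat_mul (a b : Pauli) : a.mat * b.mat = a.phase b • (a.mul b).mat := by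
  cases a <;> cases b <;> ext i j <;> fin_cases i <;> fin_cases j <;>
    simp [Pauli.mat, Pauli.phase, Pauli.mul]

lemma Pauli.mat_herm (a : Pauli) : a.matᴴ = a.mat := by
  cases a <;> ext i j <;> fin_cases i <;> fin_cases j <;> simp [Pauli.mat]

lemma Pauli.trace_mat {a : Pauli} (h : a ≠ .I) : a.mat.trace = 0 := by
  cases a <;> simp_all [Pauli.mat, Matrix.trace, Fin.sum_univ_two]

lemma Pauli.mul_self (a : Pauli) : a.mul a = .I := by cases a <;> rfl

lemma Pauli.phase_self (a : Pauli) : a.phase a = 1 := by cases a <;> rfl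

/-- product of strings -/
def smul {n : ℕ} (s t : Fin n → Pauli) : Fin n → Pauli := fun i => (s i).mul (t i)

lemma pauliOp_mul {n : ℕ} (s t : Fin n → Pauli) :
    pauliOp s * pauliOp t = (∏ i, (s i).phase (t i)) • pauliOp (smul s t) := by
  unfold pauliOp
  rw [tens_mul]
  simp only [Pauli.mat_mul]
  rw [tens_smul]
  rfl

lemma pauliOp_sq {n : ℕ} (s : Fin n → Pauli) : pauliOp s * pauliOp s = 1 := by
  rw [pauliOp_mul]
  simp only [Pauli.phase_self, Finset.prod_const_one, one_smul]
  unfold pauliOp smul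
  simp only [Pauli.mul_self]
  exact tens_one

lemma pauliOp_herm {n : ℕ} (s : Fin n → Pauli) : (pauliOp s)ᴴ = pauliOp s := by
  unfold pauliOp
  rw [tens_conjTranspose]
  simp only [Pauli.mat_herm]

/-- the support of a string -/
def supp {n : ℕ} (s : Fin n → Pauli) : Finset (Fin n) := Finset.univ.filter fun i => s i ≠ .I

lemma trace_pauli_tens {n : ℕ} (s : Fin n → Pauli) (ω : Finset (Fin n)) (hs : supp s ≠ ω)
    (A : Fin n → Matrix (Fin 2) (Fin 2) ℂ) (h1 : ∀ i ∈ ω, (A i).trace = 0)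
    (h2 : ∀ i ∉ ω, A i = 1) : (pauliOp s * tens A).trace = 0 := by
  unfold pauliOp
  rw [tens_mul, trace_tens]
  have : ∃ i, ¬ (i ∈ supp s ↔ i ∈ ω) := by
    by_contra hcon
    push Not at hcon
    exact hs (Finset.ext hcon)
  obtain ⟨i, hi⟩ := this
  apply Finset.prod_eq_zero (Finset.mem_univ i)
  by_cases hω : i ∈ ω
  · have : s i = .I := by
      by_contra hne
      exact hi ⟨fun _ => hω, fun _ => by simp [supp, hne]⟩
    rw [this]
    simp only [Pauli.mat, Matrix.one_mul]
    exact h1 i hω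
  · have : s i ≠ .I := by
      intro he
      apply hi
      constructor
      · intro h; simp [supp, he] at h
      · intro h; exact absurd h hω
    rw [h2 i hω, Matrix.mul_one]
    exact Pauli.trace_mat this

/-- the projector on the code of three generators -/
noncomputable def proj3 {n : ℕ} (a b c : Fin n → Pauli) : Matrix (Bits n) (Bits n) ℂ :=
  (1 / 8 : ℂ) • ((1 + pauliOp a) * (1 + pauliOp b) * (1 + pauliOp c))

lemma proj3_isProj {n : ℕ} (a b c : Fin n → Pauli)
    (hab : pauliOp a * pauliOp b = pauliOp b * pauliOp a)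
    (hac : pauliOp a * pauliOp c = pauliOp c * pauliOp a)
    (hbc : pauliOp b * pauliOp c = pauliOp c * pauliOp b) :
    IsProj (proj3 a b c) (codespace ![a, b, c]) := by
  set ga := pauliOp a
  set gb := pauliOp b
  set gc := pauliOp c
  have sa : ga * ga = 1 := pauliOp_sq a
  have sb : gb * gb = 1 := pauliOp_sq b
  have sc : gc * gc = 1 := pauliOp_sq c
  have ca : (1 + ga) * (1 + gb) = (1 + gb) * (1 + ga) := by
    rw [add_mul, mul_add, mul_add, add_mul, mul_add, mul_add, hab]; simp; abel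
  have cac : (1 + ga) * (1 + gc) = (1 + gc) * (1 + ga) := by
    rw [add_mul, mul_add, mul_add, add_mul, mul_add, mul_add, hac]; simp; abel
  have cbc : (1 + gb) * (1 + gc) = (1 + gc) * (1 + gb) := by
    rw [add_mul, mul_add, mul_add, add_mul, mul_add, mul_add, hbc]; simp; abel
  have ha1 : ga * (1 + ga) = 1 + ga := by rw [mul_add, sa, mul_one, add_comm]
  have hb1 : gb * (1 + gb) = 1 + gb := by rw [mul_add, sb, mul_one, add_comm]
  have hc1 : gc * (1 + gc) = 1 + gc := by rw [mul_add, sc, mul_one, add_comm]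
  have hherm : ∀ s : Fin n → Pauli, (1 + pauliOp s)ᴴ = 1 + pauliOp s := by
    intro s
    rw [Matrix.conjTranspose_add, Matrix.conjTranspose_one, pauliOp_herm]
  refine ⟨?_, ?_, ?_⟩
  · unfold proj3
    rw [Matrix.conjTranspose_smul, Matrix.conjTranspose_mul, Matrix.conjTranspose_mul, hherm,
      hherm, hherm]
    have : star (1 / 8 : ℂ) = 1 / 8 := by simp
    rw [this]
    congr 1
    change (1 + gc) * ((1 + gb) * (1 + ga)) = (1 + ga) * (1 + gb) * (1 + gc)
    rw [← mul_assoc, ← cbc, mul_assoc, ← cac, ← mul_assoc, ← ca]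
  · intro ψ j
    have key : ∀ j : Fin 3, pauliOp ((![a, b, c] : Fin 3 → Fin n → Pauli) j) * proj3 a b c
        = proj3 a b c := by
      intro j
      unfold proj3
      fin_cases j
      · change ga * ((1 / 8 : ℂ) • ((1 + ga) * (1 + gb) * (1 + gc))) = _
        rw [mul_smul_comm, ← mul_assoc, ← mul_assoc, ha1]
      · change gb * ((1 / 8 : ℂ) • ((1 + ga) * (1 + gb) * (1 + gc)))
          = (1 / 8 : ℂ) • ((1 + ga) * (1 + gb) * (1 + gc))
        rw [mul_smul_comm, ca, ← mul_assoc, ← mul_assoc, hb1]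
      · change gc * ((1 / 8 : ℂ) • ((1 + ga) * (1 + gb) * (1 + gc)))
          = (1 / 8 : ℂ) • ((1 + ga) * (1 + gb) * (1 + gc))
        rw [mul_smul_comm, mul_assoc (1 + ga), cbc, ← mul_assoc (1 + ga), cac,
          ← mul_assoc, ← mul_assoc, hc1]
    rw [Matrix.mulVec_mulVec, key j]
  · intro ψ hψ
    have h0 : ga *ᵥ ψ = ψ := hψ 0
    have h1 : gb *ᵥ ψ = ψ := hψ 1
    have h2 : gc *ᵥ ψ = ψ := hψ 2
    have e : ∀ g : Matrix (Bits n) (Bits n) ℂ, g *ᵥ ψ = ψ → (1 + g) *ᵥ ψ = (2 : ℂ) • ψ := by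
      intro g hg
      rw [Matrix.add_mulVec, Matrix.one_mulVec, hg, two_smul]
    unfold proj3
    change ((1 / 8 : ℂ) • ((1 + ga) * (1 + gb) * (1 + gc))) *ᵥ ψ = ψ
    rw [Matrix.smul_mulVec, ← Matrix.mulVec_mulVec, e gc h2, Matrix.mulVec_smul,
      ← Matrix.mulVec_mulVec, e gb h1, Matrix.mulVec_smul, e ga h0, smul_smul, smul_smul,
      smul_smul]
    norm_num

/-- the eight strings of the group generated by three strings -/
def strings3 {n : ℕ} (a b c : Fin n → Pauli) : List (Fin n → Pauli) :=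
  [fun _ => .I, a, b, c, smul a b, smul a c, smul b c, smul (smul a b) c]

lemma proj3_not_hits {n : ℕ} (a b c : Fin n → Pauli) (ω : Finset (Fin n))
    (h : ∀ s ∈ strings3 a b c, supp s ≠ ω) : ¬ Hits (proj3 a b c) ω := by
  rintro ⟨A, h1, h2, h3⟩
  apply h3
  have t : ∀ s ∈ strings3 a b c, (pauliOp s * tens A).trace = 0 := fun s hs =>
    trace_pauli_tens s ω (h s hs) A h1 h2
  have hI : (pauliOp (fun _ : Fin n => Pauli.I)) = 1 := tens_one
  have t0 : (tens A).trace = 0 := by
    have := t (fun _ => .I) (by simp [strings3])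
    rwa [hI, Matrix.one_mul] at this
  have ta := t a (by simp [strings3])
  have tb := t b (by simp [strings3])
  have tc := t c (by simp [strings3])
  have tab := t (smul a b) (by simp [strings3])
  have tac := t (smul a c) (by simp [strings3])
  have tbc := t (smul b c) (by simp [strings3])
  have tabc := t (smul (smul a b) c) (by simp [strings3])
  have e : (1 + pauliOp a) * (1 + pauliOp b) * (1 + pauliOp c)
      = 1 + pauliOp a + pauliOp b + pauliOp c + pauliOp a * pauliOp b + pauliOp a * pauliOp c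
        + pauliOp b * pauliOp c + pauliOp a * pauliOp b * pauliOp c := by
    noncomm_ring
  unfold proj3
  have e3 : ∀ d : ℂ, (d • pauliOp (smul a b)) * pauliOp c
      = d • ((∏ i, (smul a b i).phase (c i)) • pauliOp (smul (smul a b) c)) := by
    intro d
    rw [smul_mul_assoc, pauliOp_mul]
  rw [e, pauliOp_mul a b, pauliOp_mul a c, pauliOp_mul b c, e3]
  simp only [Matrix.add_mul, Matrix.smul_mul, Matrix.one_mul, Matrix.trace_add,
    Matrix.trace_smul, smul_smul, t0, ta, tb, tc, tab, tac, tbc, tabc, smul_zero, add_zero]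

lemma proj3_hits_gen {n : ℕ} (a b c : Fin n → Pauli) {s : Fin n → Pauli}
    (hs : proj3 a b c * pauliOp s = proj3 a b c) (ht : (proj3 a b c).trace ≠ 0) :
    Hits (proj3 a b c) (supp s) := by
  refine ⟨fun i => (s i).mat, ?_, ?_, ?_⟩
  · intro i hi
    apply Pauli.trace_mat
    simpa [supp] using hi
  · intro i hi
    have : s i = .I := by simpa [supp] using hi
    change (s i).mat = 1
    rw [this]; rfl
  · change (proj3 a b c * pauliOp s).trace ≠ 0
    rw [hs]
    exact ht

lemma proj3_trace {n : ℕ} (a b c : Fin n → Pauli)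
    (h : ∀ s ∈ (strings3 a b c).tail, supp s ≠ ∅) : (proj3 a b c).trace = 2 ^ n / 8 := by
  have t : ∀ s ∈ (strings3 a b c).tail, (pauliOp s).trace = 0 := by
    intro s hs
    have := trace_pauli_tens s ∅ (h s hs) (fun _ => 1) (by simp) (by simp)
    rwa [tens_one, Matrix.mul_one] at this
  have ta := t a (by simp [strings3])
  have tb := t b (by simp [strings3])
  have tc := t c (by simp [strings3])
  have tab := t (smul a b) (by simp [strings3])
  have tac := t (smul a c) (by simp [strings3])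
  have tbc := t (smul b c) (by simp [strings3])
  have tabc := t (smul (smul a b) c) (by simp [strings3])
  have e : (1 + pauliOp a) * (1 + pauliOp b) * (1 + pauliOp c)
      = 1 + pauliOp a + pauliOp b + pauliOp c + pauliOp a * pauliOp b + pauliOp a * pauliOp c
        + pauliOp b * pauliOp c + pauliOp a * pauliOp b * pauliOp c := by
    noncomm_ring
  unfold proj3
  have e3 : ∀ d : ℂ, (d • pauliOp (smul a b)) * pauliOp c
      = d • ((∏ i, (smul a b i).phase (c i)) • pauliOp (smul (smul a b) c)) := by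
    intro d
    rw [smul_mul_assoc, pauliOp_mul]
  rw [e, pauliOp_mul a b, pauliOp_mul a c, pauliOp_mul b c, e3]
  simp only [Matrix.trace_add, Matrix.trace_smul, ta, tb, tc, tab, tac, tbc, tabc, smul_zero,
    add_zero, Matrix.trace_one]
  simp
  ring

/-- generators are absorbed by the projector -/
lemma proj3_absorb {n : ℕ} (a b c : Fin n → Pauli)
    (hab : pauliOp a * pauliOp b = pauliOp b * pauliOp a)
    (hac : pauliOp a * pauliOp c = pauliOp c * pauliOp a)
    (hbc : pauliOp b * pauliOp c = pauliOp c * pauliOp b) (j : Fin 3) :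
    proj3 a b c * pauliOp ((![a, b, c] : Fin 3 → Fin n → Pauli) j) = proj3 a b c := by
  have hp := proj3_isProj a b c hab hac hbc
  have h1 : pauliOp ((![a, b, c] : Fin 3 → Fin n → Pauli) j) * proj3 a b c = proj3 a b c := by
    apply Matrix.ext_of_mulVec_single
    intro i
    rw [← Matrix.mulVec_mulVec]
    exact hp.2.1 _ j
  have h2 := congrArg Matrix.conjTranspose h1
  rwa [Matrix.conjTranspose_mul, hp.1, pauliOp_herm] at h2

end Pool.Agent.R993.LU
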